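import Pool.Agent.H80.LD.Targets

/-! Board ldp_modules, row CYL: the Borel sets of the weak dual are the cylinder sets. -/

set_option autoImplicit false

open MeasureTheory SchwartzMap Filter Topology
open scoped ENNReal ContDiff InnerProductSpace FourierTransform Uniformity

namespace Pool.Agent.H95.LD

open Pool.Agent.H80.LD
open Pool.Agent.H43.DPC (V S SD moment trans rot IsMAO Diag pm)

noncomputable section

theorem exists_bound {d : ℕ} (T : SD d) : ∃ n : ℕ, ∀ f : S d, |T f| ≤ n * pm n f := by
  classical
  obtain ⟨s, C, hC, hb⟩ := Seminorm.bound_of_continuous (schwartz_withSeminorms ℝ (V d) ℝ)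
    ((normSeminorm ℝ ℝ).comp (WeakDual.toStrongDual T).toLinearMap) (by
      change Continuous (fun u => ‖(WeakDual.toStrongDual T) u‖)
      exact (WeakDual.toStrongDual T).continuous.norm)
  obtain ⟨k, hk⟩ := exists_nat_ge (C : ℝ)
  set m : ℕ := max k (s.sup (fun i => max i.1 i.2)) with hm
  have hsub : s ⊆ Finset.Iic (m, m) := by
    intro i hi
    rw [Finset.mem_Iic]
    have h1 : max i.1 i.2 ≤ m :=
      (Finset.le_sup (f := fun i : ℕ × ℕ => max i.1 i.2) hi).trans (le_max_right _ _)
    exact ⟨(le_max_left _ _).trans h1, (le_max_right _ _).trans h1⟩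
  refine ⟨m, fun f => ?_⟩
  have h1 : ‖T f‖ ≤ (C : ℝ) * (s.sup (schwartzSeminormFamily ℝ (V d) ℝ)) f := hb f
  have h2 : (s.sup (schwartzSeminormFamily ℝ (V d) ℝ)) f ≤ pm m f :=
    Seminorm.le_def.1 (Finset.sup_mono hsub) f
  have h3 : (0 : ℝ) ≤ pm m f := apply_nonneg _ f
  have h4 : (C : ℝ) ≤ m := hk.trans (by exact_mod_cast le_max_left _ _)
  calc |T f| = ‖T f‖ := (Real.norm_eq_abs _).symm
    _ ≤ (C : ℝ) * (s.sup (schwartzSeminormFamily ℝ (V d) ℝ)) f := h1
    _ ≤ (C : ℝ) * pm m f := mul_le_mul_of_nonneg_left h2 C.2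
    _ ≤ m * pm m f := mul_le_mul_of_nonneg_right h4 h3

theorem pm_cont {d : ℕ} (m : ℕ) : Continuous (fun f : S d => pm m f) := by
  have h1 : ∀ t : Finset (ℕ × ℕ), Continuous
      (fun f : S d => (t.sup (schwartzSeminormFamily ℝ (V d) ℝ)) f) := by
    intro t
    induction t using Finset.induction_on with
    | empty =>
      simp only [Finset.sup_empty]
      exact continuous_const
    | insert i t hi ih =>
      rw [Finset.sup_insert]
      have h2 := (schwartz_withSeminorms ℝ (V d) ℝ).continuous_seminorm i
      exact (h2.sup ih : _)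
  exact h1 _

/-- the set of bounded functionals, as a type with the topology of the evaluations at the
sequence `u` -/
def Kn (d n : ℕ) (_ : ℕ → S d) : Type := {T : SD d // ∀ f : S d, |T f| ≤ n * pm n f}

/-- the evaluations -/
def ev {d : ℕ} (u : ℕ → S d) (T : SD d) : ℕ → ℝ := fun i => T (u i)

instance (d n : ℕ) (u : ℕ → S d) : TopologicalSpace (Kn d n u) :=
  TopologicalSpace.induced (fun T : Kn d n u => ev u T.1)
    (inferInstance : TopologicalSpace (ℕ → ℝ))

theorem cont_val {d : ℕ} (n : ℕ) (u : ℕ → S d) (hu : DenseRange u) :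
    Continuous (fun T : Kn d n u => (T.1 : SD d)) := by
  have h0 : ∀ i, Continuous (fun T : Kn d n u => T.1 (u i)) := by
    intro i
    have h1 : Continuous (fun T : Kn d n u => ev u T.1) := continuous_induced_dom
    exact (continuous_apply (A := fun _ : ℕ => ℝ) i).comp h1
  refine WeakDual.continuous_of_continuous_eval fun f => ?_
  refine continuous_of_uniform_approx_of_continuous fun w hw => ?_
  obtain ⟨ε, hε, hεw⟩ := Metric.mem_uniformity_dist.1 hw
  have h1 : Continuous (fun g : S d => (n : ℝ) * pm n (f - g)) :=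
    continuous_const.mul ((pm_cont n).comp (continuous_const.sub continuous_id))
  have h2 : IsOpen {g : S d | (n : ℝ) * pm n (f - g) < ε} :=
    isOpen_lt h1 continuous_const
  obtain ⟨i, hi⟩ := hu.exists_mem_open h2 ⟨f, by
    show (n : ℝ) * pm n (f - f) < ε
    have : pm n (f - f) = 0 := by
      rw [sub_self]
      exact map_zero _
    rw [this, mul_zero]
    exact hε⟩
  refine ⟨fun T => T.1 (u i), h0 i, fun T => hεw ?_⟩
  rw [Real.dist_eq, ← map_sub]
  exact (T.2 _).trans_lt hi

theorem pf_CYL (hSSC : T_SSC) : T_CYL := by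
  intro d
  refine le_antisymm ?_ ?_
  · have := hSSC d
    have : TopologicalSpace.SeparableSpace (S d) := inferInstance
    set u : ℕ → S d := TopologicalSpace.denseSeq (S d) with hu
    have hud : DenseRange u := TopologicalSpace.denseRange_denseSeq (S d)
    set M : MeasurableSpace (SD d) :=
      ⨆ f : S d, MeasurableSpace.comap (fun T : SD d => T f) (borel ℝ) with hM
    have hev : ∀ f : S d, @Measurable _ _ M (borel ℝ) (fun T : SD d => T f) := by
      intro f
      rw [measurable_iff_comap_le]
      exact le_iSup (fun f : S d => MeasurableSpace.comap (fun T : SD d => T f) (borel ℝ)) f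
    have hevu : @Measurable _ _ M MeasurableSpace.pi (ev u) := by
      rw [@measurable_pi_iff]
      intro i
      have h1 := hev (u i)
      rw [← BorelSpace.measurable_eq (α := ℝ)] at h1
      exact h1
    refine MeasurableSpace.generateFrom_le fun U hU => ?_
    have hUo : IsOpen U := hU
    have hKn : ∀ n : ℕ, @MeasurableSet _ M {T : SD d | ∀ f : S d, |T f| ≤ n * pm n f} := by
      intro n
      have h1 : {T : SD d | ∀ f : S d, |T f| ≤ n * pm n f} =
          ev u ⁻¹' (⋂ i, {x : ℕ → ℝ | |x i| ≤ n * pm n (u i)}) := by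
        ext T
        simp only [Set.mem_ofPred_eq, Set.mem_preimage, Set.mem_iInter]
        constructor
        · intro h i
          exact h (u i)
        · intro h
          have h2 : IsClosed {f : S d | |T f| ≤ n * pm n f} :=
            isClosed_le ((WeakDual.toStrongDual T).continuous.abs)
              (continuous_const.mul (pm_cont n))
          have h3 : Set.range u ⊆ {f : S d | |T f| ≤ n * pm n f} := by
            rintro f ⟨i, rfl⟩
            exact h i
          intro f
          have h4 : closure (Set.range u) ⊆ {f : S d | |T f| ≤ n * pm n f} :=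
            closure_minimal h3 h2
          exact h4 (hud f)
      rw [h1]
      refine hevu (MeasurableSet.iInter fun i => ?_)
      exact measurableSet_le ((measurable_pi_apply i).abs) measurable_const
    have h2 : U = ⋃ n : ℕ, (U ∩ {T : SD d | ∀ f : S d, |T f| ≤ n * pm n f}) := by
      ext T
      simp only [Set.mem_iUnion, Set.mem_inter_iff, Set.mem_ofPred_eq]
      constructor
      · intro hT
        obtain ⟨n, hn⟩ := exists_bound T
        exact ⟨n, hT, hn⟩
      · rintro ⟨n, hT, _⟩
        exact hT
    rw [h2]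
    refine @MeasurableSet.iUnion _ _ M _ _ fun n => ?_
    have h3 := hUo.preimage (cont_val n u hud)
    obtain ⟨W, hW, hWU⟩ := isOpen_induced_iff.1 h3
    have h4 : U ∩ {T : SD d | ∀ f : S d, |T f| ≤ n * pm n f} =
        ev u ⁻¹' W ∩ {T : SD d | ∀ f : S d, |T f| ≤ n * pm n f} := by
      ext T
      simp only [Set.mem_inter_iff, Set.mem_preimage, Set.mem_ofPred_eq]
      constructor
      · rintro ⟨h5, h6⟩
        refine ⟨?_, h6⟩
        have h7 : (⟨T, h6⟩ : Kn d n u) ∈ (fun T : Kn d n u => (T.1 : SD d)) ⁻¹' U := h5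
        rw [← hWU] at h7
        exact h7
      · rintro ⟨h5, h6⟩
        refine ⟨?_, h6⟩
        have h7 : (⟨T, h6⟩ : Kn d n u) ∈ (fun T : Kn d n u => ev u T.1) ⁻¹' W := h5
        rw [hWU] at h7
        exact h7
    rw [h4]
    refine @MeasurableSet.inter _ M _ _ (hevu ?_) (hKn n)
    exact hW.measurableSet
  · refine iSup_le fun f => ?_
    rw [← measurable_iff_comap_le]
    exact (WeakDual.eval_continuous f).borel_measurable

end

end Pool.Agent.H95.LD
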