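import Pool.Agent.H80.LD.Targets
import Pool.Agent.H43.DPC.INT
import Pool.Agent.H1.DPC.MCT
import Pool.Agent.H67.DPC.CTN
import Pool.Agent.H68.DPC.INV
import Pool.Agent.H70.DPC.CPL
import Pool.Agent.H98.DPC.HOL

/-! Board ldp_modules, row MOL: mollified moments. -/

set_option autoImplicit false

open MeasureTheory SchwartzMap Filter Topology
open scoped ENNReal ContDiff InnerProductSpace FourierTransform

namespace Pool.Agent.H95.LD

open Pool.Agent.H80.LD
open Pool.Agent.H43.DPC

noncomputable section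

/-- translations are continuous in the Schwartz space -/
theorem trans_cont {d : ℕ} (g : S d) : Continuous (fun y : V d => trans y g) := by
  rw [continuous_iff_continuousAt]
  intro y0
  show Tendsto (fun y : V d => trans y g) (𝓝 y0) (𝓝 (trans y0 g))
  rw [(schwartz_withSeminorms ℝ (V d) ℝ).tendsto_nhds]
  intro i ε hε
  set m : ℕ := max i.1 i.2 with hm
  set R : ℝ := ‖y0‖ + 1 with hR
  have hR0 : 0 ≤ R := by positivity
  set C0 : ℝ := 2 ^ (m + 1) * pm (m + 1) g with hC0
  have hC00 : 0 ≤ C0 := mul_nonneg (by positivity) (apply_nonneg _ _)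
  have key : ∀ k ≤ m, ∀ l ≤ m, ∀ y ∈ Metric.ball y0 1, ∀ x : V d,
      ‖x‖ ^ k * ‖iteratedFDeriv ℝ l g (x - y) - iteratedFDeriv ℝ l g (x - y0)‖ ≤
        C0 * (1 + R) ^ m * ‖y - y0‖ := by
    intro k hkm l hlm y hy x
    have hdiff : Differentiable ℝ (iteratedFDeriv ℝ l g) :=
      (g.smooth ⊤).differentiable_iteratedFDeriv (by exact_mod_cast WithTop.coe_lt_top _)
    have hseg := (convex_segment (𝕜 := ℝ) (x - y0) (x - y)).norm_image_sub_le_of_norm_hasFDerivWithin_le
      (f := iteratedFDeriv ℝ l g) (f' := fun z => fderiv ℝ (iteratedFDeriv ℝ l g) z)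
      (C := C0 * (1 + R) ^ m / (1 + ‖x‖) ^ k)
      (fun z _ => (hdiff z).hasFDerivAt.hasFDerivWithinAt) ?_
      (left_mem_segment ℝ _ _) (right_mem_segment ℝ _ _)
    · have h1 : ‖x - y - (x - y0)‖ = ‖y - y0‖ := by
        rw [show x - y - (x - y0) = -(y - y0) by abel, norm_neg]
      rw [h1] at hseg
      have hx : ‖x‖ ^ k ≤ (1 + ‖x‖) ^ k := pow_le_pow_left₀ (norm_nonneg _) (by linarith) _
      have hp : 0 < (1 + ‖x‖) ^ k := by positivity
      calc ‖x‖ ^ k * ‖iteratedFDeriv ℝ l g (x - y) - iteratedFDeriv ℝ l g (x - y0)‖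
          ≤ (1 + ‖x‖) ^ k * (C0 * (1 + R) ^ m / (1 + ‖x‖) ^ k * ‖y - y0‖) :=
            mul_le_mul hx hseg (norm_nonneg _) hp.le
        _ = C0 * (1 + R) ^ m * ‖y - y0‖ := by field_simp
    · intro z hz
      rw [norm_fderiv_iteratedFDeriv, le_div_iff₀ (by positivity)]
      have hz' : ‖x - z‖ ≤ R := by
        have hmem : x - z ∈ segment ℝ y0 y := by
          obtain ⟨a, b, ha, hb, hab, rfl⟩ := hz
          refine ⟨a, b, ha, hb, hab, ?_⟩
          have : x = a • x + b • x := by rw [← add_smul, hab, one_smul]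
          calc a • y0 + b • y = (a • x + b • x) - (a • (x - y0) + b • (x - y)) := by
                rw [smul_sub, smul_sub]; abel
            _ = x - (a • (x - y0) + b • (x - y)) := by rw [← this]
        have hball : segment ℝ y0 y ⊆ Metric.closedBall (0 : V d) R := by
          apply (convex_closedBall (0 : V d) R).segment_subset
          · rw [mem_closedBall_zero_iff]; linarith
          · rw [mem_closedBall_zero_iff]
            have := norm_sub_norm_le y y0
            rw [Metric.mem_ball, dist_eq_norm] at hy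
            linarith
        have := hball hmem
        rwa [mem_closedBall_zero_iff] at this
      have h2 : (1 + ‖x‖) ^ k ≤ (1 + ‖z‖) ^ k * (1 + R) ^ m := by
        have h3 : ‖x‖ ≤ ‖z‖ + ‖x - z‖ := by
          calc ‖x‖ = ‖z + (x - z)‖ := by congr 1; abel
            _ ≤ _ := norm_add_le _ _
        calc (1 + ‖x‖) ^ k ≤ ((1 + ‖z‖) * (1 + R)) ^ k := by
              apply pow_le_pow_left₀ (by positivity)
              nlinarith [norm_nonneg z, norm_nonneg (x - z)]
          _ = (1 + ‖z‖) ^ k * (1 + R) ^ k := mul_pow _ _ _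
          _ ≤ (1 + ‖z‖) ^ k * (1 + R) ^ m := by
              apply mul_le_mul_of_nonneg_left _ (by positivity)
              exact pow_le_pow_right₀ (by linarith) hkm
      have h4 := SchwartzMap.one_add_le_sup_seminorm_apply (𝕜 := ℝ) (m := (m + 1, m + 1))
        (k := k) (n := l + 1) (by simp; omega) (by simp; omega) g z
      calc ‖iteratedFDeriv ℝ (l + 1) g z‖ * (1 + ‖x‖) ^ k
          ≤ ‖iteratedFDeriv ℝ (l + 1) g z‖ * ((1 + ‖z‖) ^ k * (1 + R) ^ m) :=
            mul_le_mul_of_nonneg_left h2 (norm_nonneg _)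
        _ = ((1 + ‖z‖) ^ k * ‖iteratedFDeriv ℝ (l + 1) g z‖) * (1 + R) ^ m := by ring
        _ ≤ C0 * (1 + R) ^ m := by
            apply mul_le_mul_of_nonneg_right h4 (by positivity)
  have hlim : Tendsto (fun y => C0 * (1 + R) ^ m * ‖y - y0‖) (𝓝 y0) (𝓝 0) := by
    have h1 : Tendsto (fun y => C0 * (1 + R) ^ m * ‖y - y0‖) (𝓝 y0)
        (𝓝 (C0 * (1 + R) ^ m * ‖y0 - y0‖)) := by
      apply Continuous.tendsto
      fun_prop
    simpa using h1
  filter_upwards [Metric.ball_mem_nhds y0 one_pos, hlim.eventually (gt_mem_nhds hε)] with y hy hy2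
  refine lt_of_le_of_lt ?_ hy2
  refine SchwartzMap.seminorm_le_bound ℝ i.1 i.2 _ (by positivity) fun x => ?_
  have ht : ∀ z : V d, iteratedFDeriv ℝ i.2 (trans z g) x = iteratedFDeriv ℝ i.2 g (x - z) := by
    intro z
    have : (⇑(trans z g) : V d → ℝ) = fun w => g (w - z) := rfl
    rw [this, iteratedFDeriv_comp_sub]
  have h1 : iteratedFDeriv ℝ i.2 (trans y g - trans y0 g) x =
      iteratedFDeriv ℝ i.2 g (x - y) - iteratedFDeriv ℝ i.2 g (x - y0) := by
    rw [← ht, ← ht]
    have : (⇑(trans y g - trans y0 g) : V d → ℝ) = ⇑(trans y g) - ⇑(trans y0 g) := rfl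
    rw [this, iteratedFDeriv_sub_apply (((trans y g).smooth ⊤).contDiffAt.of_le (mod_cast le_top))
      (((trans y0 g).smooth ⊤).contDiffAt.of_le (mod_cast le_top))]
  rw [h1]
  exact key i.1 (le_max_left _ _) i.2 (le_max_right _ _) y hy x

theorem moment_cont {d : ℕ} (μ : Measure (SD d)) [IsProbabilityMeasure μ] (hM : IsMAO μ) (n : ℕ)
    (ρ : S d) : Continuous (fun x : Fin n → V d => moment μ (fun j => trans (x j) ρ)) := by
  have hMCT : T_MCT := Pool.Agent.H1.DPC.MCT (CTN Pool.Agent.H70.DPC.CPL) HOL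
  rw [continuous_iff_seqContinuous]
  intro x y hx
  refine hMCT d μ hM n (fun k j => trans (x k j) ρ) (fun j => trans (y j) ρ) fun j => ?_
  exact ((trans_cont ρ).tendsto _).comp ((tendsto_pi_nhds.1 hx) j)

theorem moment_bound {d : ℕ} (μ : Measure (SD d)) [IsProbabilityMeasure μ] (hM : IsMAO μ)
    (hT : TransInv μ) (n : ℕ) (ρ : S d) : ∃ B : ℝ, 0 ≤ B ∧ ∀ x : Fin n → V d,
      |moment μ (fun j => trans (x j) ρ)| ≤ B := by
  rcases Nat.eq_zero_or_pos n with hn | hn
  · subst hn
    refine ⟨|moment μ (fun j : Fin 0 => j.elim0)|, abs_nonneg _, fun x => le_of_eq ?_⟩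
    congr 2
    exact Subsingleton.elim _ _
  · refine ⟨∏ _i : Fin n, Nn μ n ρ, Finset.prod_nonneg fun i _ => ENNReal.toReal_nonneg,
      fun x => ?_⟩
    refine (HOL_holder μ hM n hn _).trans (le_of_eq ?_)
    exact Finset.prod_congr rfl fun i _ => INV.Nn_trans d μ hT n (x i) ρ

theorem pf_MOL : T_MOL := by
  intro d μ _ hM hT n ρ f h hh
  replace hT := Pool.Agent.H43.DPCS.transInv_of μ hT
  have hc := moment_cont μ hM n ρ
  obtain ⟨B, hB0, hB⟩ := moment_bound μ hM hT n ρ
  have hfi : Integrable (fun x : Fin n → V d => ∏ j, f j (x j)) :=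
    Integrable.fintype_prod (f := fun j => f j) fun j => (f j).integrable
  have hint : Integrable (fun x : Fin n → V d => (∏ j, f j (x j)) *
      moment μ (fun j => trans (x j) ρ)) := by
    refine hfi.mul_bdd (c := B) hc.aestronglyMeasurable (Eventually.of_forall fun x => ?_)
    rw [Real.norm_eq_abs]
    exact hB x
  refine ⟨hc, hint, ?_⟩
  have h1 : ∀ T : SD d, ∏ j, T (h j) =
      ∫ x : Fin n → V d, ∏ j, (f j (x j) * T (trans (x j) ρ)) := by
    intro T
    rw [integral_fintype_prod_volume_eq_prod (fun j y => f j y * T (trans y ρ))]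
    refine Finset.prod_congr rfl fun j _ => ?_
    exact (INT d (WeakDual.toStrongDual T) (f j) ρ (h j) (hh j)).2.2.2
  have h2 : moment μ h =
      ∫ T : SD d, (∫ x : Fin n → V d, ∏ j, (f j (x j) * T (trans (x j) ρ))) ∂μ := by
    unfold moment
    exact integral_congr_ae (Eventually.of_forall h1)
  have hu : StronglyMeasurable (Function.uncurry fun (x : Fin n → V d) (T : SD d) =>
      ∏ j, (f j (x j) * T (trans (x j) ρ))) := by
    refine stronglyMeasurable_uncurry_of_continuous_of_stronglyMeasurable ?_ ?_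
    · intro T
      refine continuous_finsetProd _ fun j _ => ?_
      refine ((f j).continuous.comp (continuous_apply j)).mul ?_
      exact (WeakDual.toStrongDual T).continuous.comp ((trans_cont ρ).comp (continuous_apply j))
    · intro x
      refine Measurable.stronglyMeasurable ?_
      refine Finset.measurable_prod _ fun j _ => measurable_const.mul ?_
      exact (WeakDual.eval_continuous _).measurable
  have hI : Integrable (Function.uncurry fun (x : Fin n → V d) (T : SD d) =>
      ∏ j, (f j (x j) * T (trans (x j) ρ))) (volume.prod μ) := by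
    rw [integrable_prod_iff hu.aestronglyMeasurable]
    constructor
    · refine Eventually.of_forall fun x => ?_
      show Integrable (fun T : SD d => ∏ j, (f j (x j) * T (trans (x j) ρ))) μ
      simp only [Finset.prod_mul_distrib]
      exact (HOL_memLp μ hM n fun j => trans (x j) ρ).const_mul _
    · obtain ⟨B', hB'0, hB'⟩ := moment_bound μ hM hT (n + n) ρ
      refine Integrable.mono' (g := fun x : Fin n → V d => |∏ j, f j (x j)| * ((1 + B') / 2))
        (hfi.abs.mul_const _) hu.norm.integral_prod_right.aestronglyMeasurable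
        (Eventually.of_forall fun x => ?_)
      show ‖∫ T : SD d, ‖∏ j, (f j (x j) * T (trans (x j) ρ))‖ ∂μ‖ ≤
        |∏ j, f j (x j)| * ((1 + B') / 2)
      rw [Real.norm_of_nonneg (integral_nonneg fun T => norm_nonneg _)]
      have h3 : ∀ T : SD d, ‖∏ j, (f j (x j) * T (trans (x j) ρ))‖ =
          |∏ j, f j (x j)| * |∏ j, T (trans (x j) ρ)| := by
        intro T
        rw [Finset.prod_mul_distrib, norm_mul, Real.norm_eq_abs, Real.norm_eq_abs]
      simp only [h3]
      rw [integral_const_mul]
      refine mul_le_mul_of_nonneg_left ?_ (abs_nonneg _)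
      have h4 : ∀ T : SD d, ∏ i : Fin (n + n),
          T (trans ((Fin.append x x) i) ρ) = (∏ j, T (trans (x j) ρ)) ^ 2 := by
        intro T
        rw [Fin.prod_univ_add, sq]
        simp only [Fin.append_left, Fin.append_right]
      have h5 : Integrable (fun T : SD d => (∏ j, T (trans (x j) ρ)) ^ 2) μ := by
        have h6 := HOL_memLp μ hM (n + n) fun i => trans ((Fin.append x x) i) ρ
        simp only [h4] at h6
        exact h6
      have h6 : ∫ T : SD d, (∏ j, T (trans (x j) ρ)) ^ 2 ∂μ ≤ B' := by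
        have h7 := hB' (Fin.append x x)
        unfold moment at h7
        simp only [h4] at h7
        exact (le_abs_self _).trans h7
      calc ∫ T : SD d, |∏ j, T (trans (x j) ρ)| ∂μ
          ≤ ∫ T : SD d, (1 + (∏ j, T (trans (x j) ρ)) ^ 2) / 2 ∂μ := by
            refine integral_mono_of_nonneg (Eventually.of_forall fun T => abs_nonneg _)
              (((integrable_const _).add h5).div_const _) (Eventually.of_forall fun T => ?_)
            show |∏ j, T (trans (x j) ρ)| ≤ (1 + (∏ j, T (trans (x j) ρ)) ^ 2) / 2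
            nlinarith [sq_nonneg (|∏ j, T (trans (x j) ρ)| - 1),
              sq_abs (∏ j, T (trans (x j) ρ))]
        _ = (1 + ∫ T : SD d, (∏ j, T (trans (x j) ρ)) ^ 2 ∂μ) / 2 := by
            rw [integral_div, integral_add (integrable_const _) h5]
            simp
        _ ≤ (1 + B') / 2 := by linarith
  rw [h2, ← integral_integral_swap hI]
  refine integral_congr_ae (Eventually.of_forall fun x => ?_)
  show ∫ T : SD d, ∏ j, (f j (x j) * T (trans (x j) ρ)) ∂μ =
    (∏ j, f j (x j)) * moment μ (fun j => trans (x j) ρ)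
  simp only [Finset.prod_mul_distrib]
  rw [integral_const_mul]
  rfl

end

end Pool.Agent.H95.LD
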